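import Mathlib
import Pool.Agent.Q64.N.Main

/-!
# Perfectness of the motivic cup product pairing and products with abelian varieties: Newton strata

Fix a prime number `p` and a nonempty finite set `κ`. For `i` in `κ` let `g i` be a dimension and
let `sl i j`, `j < g i`, be rational numbers between `0` and `1 / 2` such that the `sl i j` and
`1 - sl i j` are the slopes of a symmetric Newton polygon with integral break points (`IsNewton`)
which is not the supersingular one, that is `sl i j < 1 / 2` for some `j`. Let `r` be an integer
smaller than all the `g i`, and let `E` be a number field. By the theorem of Honda and Tate,
`Stratum g sl p a` is the set of the families of isogeny classes of abelian varieties of dimensions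
`g i` over the field with `q = p ^ a` elements with these Newton polygons; it consists of the
families `f i` of the characteristic polynomials of Frobenius.

As `a → ∞`, the number of the families in `Stratum g sl p a` tends to infinity, and **the
proportion of those families for which the following is true tends to one**: for all `N` and
`ε > 0` there is an `a₀` such that for `a ≥ a₀` there are at least `N` families, and at most `ε`
times their number are exceptions.

Let `A` be an abelian variety over the field with `Q = q ^ s` elements, `s > 0`, which is isogenous
to a product of powers of abelian varieties coming from the field with `q` elements, with
characteristic polynomials `f i`, and let `Z` be **any** smooth projective variety over the field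
with `Q` elements such that

* the eigenvalues `ρ` of Frobenius on the cohomology of `Z` and their conjugates are in a group of
  rank at most `r` over `E` (`RootsRank`): there are nonzero numbers `u 1, ..., u r` such that each
  `ρ` has a power which is the product of a nonzero element of `E` and of integral powers of
  `u 1, ..., u r`;
* homologically trivial self-correspondences of degree zero of `A × Z` are nilpotent, for instance
  the motive of `Z` is finite-dimensional in the sense of Kimura and O'Sullivan. This is known for
  all varieties dominated by products of curves, and for their products with `A`.

For all `n` **the pairings `H^i(A × Z, ℚ(n)) × H^(2 d - i)(A × Z, ℚ(d - n)) → ℚ`,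
`d = dim A + dim Z`, are perfect for all `i` if and only if the pairings
`H^i(Z, ℚ(l)) × H^(2 e - i)(Z, ℚ(e - l)) → ℚ`, `e = dim Z`, are perfect for all `i` and all `l`
with `n - dim A ≤ l ≤ n`** (`PairingIn`): `BP(n)` for `A × Z` is equivalent to `BP(l)` for `Z`,
`n - dim A ≤ l ≤ n`. (For `i = 2 n` it is the pairing of Chow groups, stated with real
coefficients: the spaces are finite-dimensional and the map to the dual is bijective. For `i ≠ 2 n`
one of the two groups is zero, and perfectness is the vanishing of the other one.) If `Z` is a
point or a curve with eigenvalues of this kind, all `BP(n)` hold for `A × Z`. The Frobenius
endomorphism acts on `CH^i(A × Z, m)_ℚ` as multiplication by `Q ^ i`.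

The framework (`TheoryData`, `IsChow`, `IsWeil`) is the one of helper492: the Chow groups `C` with
their pull-backs, push-forwards and products, and a Weil cohomology theory `H` with coefficients in
an algebraically closed field `F`, on a class `𝒱` of smooth proper varieties over `k`.

For `r = 0` the assumption on the eigenvalues says that they and their conjugates have powers in
`E`. If for instance a factor of this kind over the field with `q' = p ^ b` elements is given, one
can take for `E` the field generated by the Frobenius eigenvalues and their conjugates, and apply
the theorem to the fields with `q = p ^ a` elements, `b | a`. A supersingular abelian variety may
always be added to the other factor.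

Relation to other results. `AlmostAllAbelianFactors` (this folder) is about almost all abelian
varieties of given dimensions. Almost all of these are ordinary, and each other Newton polygon
belongs to a proportion of the isogeny classes which tends to zero; so that theorem says nothing
about any Newton polygon which is not ordinary. Here the characteristic and the Newton polygons are
given: for instance one obtains almost all those abelian varieties of a given dimension at least
three, over the fields of characteristic `p`, which have `p`-rank zero and are not supersingular.
`ProductsWithAbelian` and `SmallSlopeDeviation` (this folder) are about abelian varieties with
given fields. The count of the families in a stratum is that of helper518 (`NewtonStrata`,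
MP_ee618e_ag, where it is applied to the Tate conjecture for the products of the abelian varieties
in the stratum and supersingular ones).

The proof. The elements of the stratum correspond to integral points in a box whose sides tend to
infinity: the coefficients of the trace polynomials, divided by the powers of `p` prescribed by the
Newton polygons (helper518). We apply the sieve only with primes which split completely in the
Galois closure of `E`; there are infinitely many (Chebotarev, formalized by helper401). So for
almost all families the trace polynomials are irreducible, and each pair `α`, `q / α` of roots can
be exchanged by a Galois automorphism which fixes all the other roots of all the `f i` and all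
elements of `E`. No root is supersingular, as some slope is smaller than `1 / 2`. A multiplicative
relation between `ρ`, a power of `q` and roots of the `f i`, other than those which follow from
`α (q / α) = q`, expresses some power of `α ^ 2 / q`, for all roots `α` of one `f i`, by conjugates
of `ρ`; by the automorphisms above these `g i > r` numbers are multiplicatively independent, also
modulo `E`, which is a contradiction. It follows that the generalized eigenvectors of Frobenius in
the cohomology of `A × Z` for the eigenvalues `Q ^ i` are sums of products of classes of products
`D j` of divisors on `A` and of classes on `Z`. Let `p` be the projector given by the `D j` and
dual classes, and `P` a polynomial killing all the other eigenvalues and with `P (Q ^ i) = 1`. The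
correspondence `(1 - p) P (F)` is homologically trivial, hence nilpotent; as it acts on
`T^i(A × Z)` as the idempotent `1 - p`, this idempotent is zero. (The idea to play the eigenvalues
of Frobenius off against nilpotence is due to Soulé, Geisser and Kahn.)
-/

set_option autoImplicit false

namespace Pool.Agent.Results.MP_a9d3bd_ag.NewtonStrata

open Polynomial Pool.Agent.Q64.P Pool.Agent.Q64.N
open Pool.Agent.Q64.L (RootsRank)

/-- **The motivic cup product pairing is perfect for `A × Z` in weight `n` (`BP(n)`) if and only if
it is perfect for `Z` in all weights from `n - dim A` to `n`, for all smooth projective varieties
`Z` whose Frobenius eigenvalues and their conjugates are of rank at most `r` over `E`, for almost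
all families of abelian varieties in each Newton stratum over the fields of characteristic `p`.**
-/
theorem result {κ : Type} [Fintype κ] [Nonempty κ] (p : ℕ) [Fact p.Prime]
    -- dimensions and Newton polygons
    (g : κ → ℕ) (sl : ∀ i, Fin (g i) → ℚ) (hsl : ∀ i, IsNewton (sl i))
    (hss : ∀ i, ∃ j, sl i j < 1 / 2)
    -- the rank and the number field
    (r : ℕ) (hr : ∀ i, r < g i) (E : IntermediateField ℚ ℂ) [FiniteDimensional ℚ E]
    -- a number of families, a proportion of exceptions
    (N : ℕ) (ε : ℝ) (hε : 0 < ε) :
    ∃ a₀ : ℕ, ∀ a, a₀ ≤ a →
      (Stratum g sl p a).Finite ∧ N ≤ (Stratum g sl p a).ncard ∧
      ({f ∈ Stratum g sl p a | ¬ PairingReduces (RootsRank E r) (p ^ a) f}.ncard : ℝ) ≤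
        ε * ((Stratum g sl p a).ncard : ℝ) :=
  strata p g sl hsl hss r hr E (fun a f => PairingReduces (RootsRank E r) (p ^ a) f)
    (fun _ _ _ hq hG => pairingReduces' hq hG) N ε hε

end Pool.Agent.Results.MP_a9d3bd_ag.NewtonStrata
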